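import Pool.Agent.MSTDIntervals.Exact

/-!
MP_9a6c6e_co, Q1 has a negative answer (already for `n = 4`).
-/

namespace Pool.Agent.Results.MP_9a6c6e_co.IsolatedComponent

open MeasureTheory Pool.Agent.MSTDIntervals
open scoped Pointwise

/-- Q1 as posed: for every `n ≥ 1` such that `P_n` contains MSTD points, every MSTD point
`w ∈ P_{n+1}` is joined by an MSTD path in `P_{n+1}` to some cleaved image of an MSTD point
of `P_n`. -/
def Q1 : Prop :=
  ∀ n : ℕ, 1 ≤ n → (∃ v ∈ PSet n, MSTD v) → ∀ w ∈ PSet (n + 1), MSTD w →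
    ∃ w', IsCleavedImage n w' ∧ JoinedMSTD (n + 1) w w'

theorem result :
    ¬ Q1 ∧
    (∃ v ∈ PSet 4, MSTD v) ∧
    ∃ w ∈ PSet 5, w = ![(0, 1), (3, 5), (9, 16), (19, 20), (23, 26)] ∧
      volume (J w - J w) = 50 ∧ volume (J w + J w) = 51 ∧ MSTD w ∧
      (∀ i, (w i).1 < (w i).2) ∧
      (∀ w', IsCleavedImage 4 w' → ¬ JoinedMSTD 5 w w') ∧
      (∀ w', JoinedMSTD 5 w w' → ∀ i : Fin 4, (w' i.castSucc).2 < (w' i.succ).1) := by
  have h4 : ∃ v ∈ PSet 4, MSTD v := ⟨_, w4_mem, w4_mstd⟩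
  have hno : ∀ w', IsCleavedImage 4 w' → ¬ JoinedMSTD 5 (ofInt w5) w' := by
    intro w' hc hj
    obtain ⟨i, hi⟩ := cleaved_gap hc
    have := gaps_stay hj i
    rw [hi] at this
    exact lt_irrefl _ this
  refine ⟨?_, h4, ofInt w5, w5_mem, point5_eq, ?_, ?_, w5_mstd, ?_, hno,
    fun w' hj i => gaps_stay hj i⟩
  · intro hQ
    obtain ⟨w', hc, hj⟩ := hQ 4 (by norm_num) h4 _ w5_mem w5_mstd
    exact hno w' hc hj
  · rw [point5_eq]
    exact vol_sub5
  · rw [point5_eq]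
    exact vol_add5
  · intro i
    have : ∀ i, (w5 i).1 < (w5 i).2 := by decide
    simp only [ofInt]
    exact_mod_cast this i

end Pool.Agent.Results.MP_9a6c6e_co.IsolatedComponent
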